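import Pool.Agent.N436.DF.Stm

/-!
# Project DF (helper436), part 9: potentials in a minimal counterexample
-/

set_option autoImplicit false

namespace Pool.Agent.N644.DF.Pot

open Finset Pool.Agent.N436.DF

variable {V : Type} [DecidableEq V]

theorem r_nn {P : Par} {H : Hub V} (h : Ok P H) (u v : V) : 0 ≤ H.r u v := by
  rcases h.r01 u v with h1 | h1
  · rw [h1]
  · rw [h1]
    norm_num

theorem hyp_sub {P : Par} {H : Hub V} {S X : Finset V} (h : Hyp P H S) (hX : X ⊆ S) :
    Hyp P H X := fun Y hY hn => h Y (hY.trans hX) hn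

theorem eE_mono {P : Par} {H : Hub V} {S X : Finset V} (h : Ok P H) (hX : X ⊆ S) :
    eE H X ≤ eE H S := by
  unfold eE
  calc ∑ u ∈ X, ∑ v ∈ X, H.r u v ≤ ∑ u ∈ X, ∑ v ∈ S, H.r u v :=
        Finset.sum_le_sum fun u _ =>
          Finset.sum_le_sum_of_subset_of_nonneg hX fun v _ _ => r_nn h u v
    _ ≤ ∑ u ∈ S, ∑ v ∈ S, H.r u v :=
        Finset.sum_le_sum_of_subset_of_nonneg hX fun u _ _ =>
          Finset.sum_nonneg fun v _ => r_nn h u v

theorem col_sub {P : Par} {H : Hub V} {S X : Finset V} (h : MinCex P H S) (hX : X ⊆ S)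
    (hne : X ≠ S) : Col H X :=
  h.ih2 H X h.ok (hyp_sub h.hyp hX) (eE_mono h.ok hX)
    (Finset.card_lt_card (Finset.ssubset_iff_subset_ne.2 ⟨hX, hne⟩))

theorem ne_of_mc {P : Par} {H : Hub V} {S : Finset V} (h : MinCex P H S) : S.Nonempty := by
  rw [Finset.nonempty_iff_ne_empty]
  rintro rfl
  refine h.ncol ⟨fun _ => true, fun _ _ => 0, fun _ _ => le_rfl, ?_, ?_⟩
  · intro u hu
    simp at hu
  · intro u hu
    simp at hu

/-- a nonempty proper subset of least potential -/
theorem least {P : Par} {H : Hub V} {S X : Finset V} (hX : X ⊆ S)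
    (hn : X.Nonempty) (hne : X ≠ S) :
    ∃ X0, X0 ⊆ S ∧ X0.Nonempty ∧ X0 ≠ S ∧ rho P H X0 ≤ rho P H X ∧
      ∀ Y, Y ⊆ S → Y.Nonempty → Y ≠ S → rho P H X0 ≤ rho P H Y := by
  obtain ⟨X0, h0, hm⟩ := Finset.exists_min_image
    (S.powerset.filter (fun Y => Y.Nonempty ∧ Y ≠ S)) (fun Y => rho P H Y)
    ⟨X, by rw [Finset.mem_filter, Finset.mem_powerset]; exact ⟨hX, hn, hne⟩⟩
  rw [Finset.mem_filter, Finset.mem_powerset] at h0
  refine ⟨X0, h0.1, h0.2.1, h0.2.2, ?_, ?_⟩
  · exact hm X (by rw [Finset.mem_filter, Finset.mem_powerset]; exact ⟨hX, hn, hne⟩)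
  · intro Y h1 h2 h3
    exact hm Y (by rw [Finset.mem_filter, Finset.mem_powerset]; exact ⟨h1, h2, h3⟩)

/-- a set reached by the obstacle is everything -/
theorem whole {P : Par} {H : Hub V} {S X0 Y : Finset V} (hX : X0 ⊆ S)
    (hn : X0.Nonempty) (hmin : ∀ Y, Y ⊆ S → Y.Nonempty → Y ≠ S → rho P H X0 ≤ rho P H Y)
    (hY : Y ⊆ S \ X0) (hlt : rho P H (Y ∪ X0) < rho P H X0) :
    Y ∪ X0 = S ∧ Y = S \ X0 := by
  have h1 : Y ∪ X0 = S := by
    by_contra hne
    have h2 := hmin (Y ∪ X0)
      (Finset.union_subset (hY.trans Finset.sdiff_subset) hX)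
      (hn.mono Finset.subset_union_right) hne
    omega
  refine ⟨h1, Finset.Subset.antisymm hY ?_⟩
  intro v hv
  rw [Finset.mem_sdiff] at hv
  have h3 : v ∈ Y ∪ X0 := by rw [h1]; exact hv.1
  rw [Finset.mem_union] at h3
  exact h3.resolve_right hv.2

theorem two : S_two := by
  intro V _ P H S hM v hv
  by_contra hcon
  push Not at hcon
  have hS : S = {v} := by
    ext w
    rw [Finset.mem_singleton]
    exact ⟨fun hw => hcon w hw, fun hw => hw ▸ hv⟩
  have h1 := hM.hyp {v} (by rw [hS]) ⟨v, Finset.mem_singleton_self v⟩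
  unfold rho ew wt at h1
  simp only [Finset.sum_singleton, hM.ok.r0 v, hM.ok.m0 v, mul_zero, add_zero, sub_zero] at h1
  have h2 := hM.ok.c_ge true v
  have h3 := hM.ok.c_ge false v
  have hb := P.hb
  have key : ∀ i : Bool, 0 ≤ H.c i v → False := by
    intro i hi
    refine hM.ncol ⟨fun _ => i, fun _ _ => 0, fun _ _ => le_rfl, ?_, ?_⟩
    · intro u _ w _ hne
      exact absurd rfl hne
    · intro u hu
      rw [hS, Finset.mem_singleton] at hu
      subst hu
      unfold load
      rw [hS]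
      simp only [Finset.sum_singleton, if_true, hM.ok.r0]
      exact hi
  by_cases h4 : 0 ≤ H.c true v
  · exact key true h4
  · have h5 : H.c true v = -1 := by omega
    rw [h5] at h1
    by_cases h6 : 0 ≤ H.c false v
    · exact key false h6
    · have h7 : H.c false v = -1 := by omega
      rw [h7] at h1
      simp at h1

theorem a0 (hkr : S_killRho) (hkf : S_KF) : S_A0 := by
  intro V _ P H S X hM hX hn hne
  obtain ⟨X0, h1, h2, h3, h4, hmin⟩ := least (P := P) (H := H) hX hn hne
  obtain ⟨f, p, hc⟩ := col_sub hM h1 h3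
  obtain ⟨Y, hY, hYn, hle⟩ := hkf V P H S X0 f p hM h1 h2 hc
  have hs : 0 ≤ ∑ v ∈ Y, sav P H X0 f v :=
    Finset.sum_nonneg fun v _ => ((hkr V P H X0 f hM.ok).2.2.1 v).2.2.2.2.2
  have hb := P.hb
  obtain ⟨hw, -⟩ := whole h1 h2 hmin hY (by omega)
  rw [hw] at hle
  omega

theorem conn : S_conn := by
  intro V _ P H S X hM hX hn hne
  by_contra hcon
  push Not at hcon
  have hr : ∀ x ∈ X, ∀ v ∈ S \ X, H.r x v = 0 ∧ H.m x v = 0 := by
    intro x hx v hv
    have h1 := hcon x hx v hv
    unfold Adj at h1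
    push Not at h1
    refine ⟨(hM.ok.r01 x v).resolve_right h1.1, ?_⟩
    have := hM.ok.m_nn x v
    omega
  obtain ⟨f1, p1, h1⟩ := col_sub hM hX hne
  have hne2 : S \ X ≠ S := by
    intro h
    obtain ⟨x, hx⟩ := hn
    have h2 : x ∈ S \ X := by rw [h]; exact hX hx
    exact (Finset.mem_sdiff.1 h2).2 hx
  obtain ⟨f2, p2, h2⟩ := col_sub hM Finset.sdiff_subset hne2
  refine hM.ncol ⟨fun u => if u ∈ X then f1 u else f2 u,
    fun u v => if u ∈ X then (if v ∈ X then p1 u v else 0) else
      (if v ∈ X then 0 else p2 u v), ?_, ?_, ?_⟩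
  · intro u v
    show 0 ≤ (if u ∈ X then (if v ∈ X then p1 u v else 0) else
      (if v ∈ X then 0 else p2 u v) : ℤ)
    split_ifs
    · exact h1.nn u v
    · exact le_rfl
    · exact le_rfl
    · exact h2.nn u v
  · intro u hu v hv hf
    by_cases hux : u ∈ X
    · by_cases hvx : v ∈ X
      · simp only [if_pos hux, if_pos hvx] at hf ⊢
        exact h1.pay u hux v hvx hf
      · simp only [if_pos hux, if_neg hvx] at hf ⊢
        rw [(hr u hux v (Finset.mem_sdiff.2 ⟨hv, hvx⟩)).2]
        norm_num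
    · by_cases hvx : v ∈ X
      · simp only [if_neg hux, if_pos hvx] at hf ⊢
        rw [hM.ok.msymm, (hr v hvx u (Finset.mem_sdiff.2 ⟨hu, hux⟩)).2]
        norm_num
      · simp only [if_neg hux, if_neg hvx] at hf ⊢
        exact h2.pay u (Finset.mem_sdiff.2 ⟨hu, hux⟩) v (Finset.mem_sdiff.2 ⟨hv, hvx⟩) hf
  · intro u hu
    unfold load
    rw [← Finset.sum_sdiff hX]
    by_cases hux : u ∈ X
    · have e1 : ∑ v ∈ S \ X, (if (if u ∈ X then f1 u else f2 u) =
          (if v ∈ X then f1 v else f2 v) then H.r u v else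
          (if u ∈ X then (if v ∈ X then p1 u v else 0) else
            (if v ∈ X then 0 else p2 u v))) = 0 := by
        apply Finset.sum_eq_zero
        intro v hv
        have hvx := (Finset.mem_sdiff.1 hv).2
        rw [(hr u hux v hv).1]
        simp only [if_pos hux, if_neg hvx, ite_self]
      have e2 : ∑ v ∈ X, (if (if u ∈ X then f1 u else f2 u) =
          (if v ∈ X then f1 v else f2 v) then H.r u v else
          (if u ∈ X then (if v ∈ X then p1 u v else 0) else
            (if v ∈ X then 0 else p2 u v))) = load H X f1 p1 u := by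
        unfold load
        apply Finset.sum_congr rfl
        intro v hv
        simp only [if_pos hux, if_pos hv]
      rw [e1, e2, if_pos hux, zero_add]
      exact h1.cap u hux
    · have e1 : ∑ v ∈ X, (if (if u ∈ X then f1 u else f2 u) =
          (if v ∈ X then f1 v else f2 v) then H.r u v else
          (if u ∈ X then (if v ∈ X then p1 u v else 0) else
            (if v ∈ X then 0 else p2 u v))) = 0 := by
        apply Finset.sum_eq_zero
        intro v hv
        rw [hM.ok.rsymm, (hr v hv u (Finset.mem_sdiff.2 ⟨hu, hux⟩)).1]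
        simp only [if_neg hux, if_pos hv, ite_self]
      have e2 : ∑ v ∈ S \ X, (if (if u ∈ X then f1 u else f2 u) =
          (if v ∈ X then f1 v else f2 v) then H.r u v else
          (if u ∈ X then (if v ∈ X then p1 u v else 0) else
            (if v ∈ X then 0 else p2 u v))) = load H (S \ X) f2 p2 u := by
        unfold load
        apply Finset.sum_congr rfl
        intro v hv
        have hvx := (Finset.mem_sdiff.1 hv).2
        simp only [if_neg hux, if_neg hvx]
      rw [e1, e2, if_neg hux, add_zero]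
      exact h2.cap u (Finset.mem_sdiff.2 ⟨hu, hux⟩)

theorem a1 (hlow : S_low) (hkr : S_killRho) (hkf : S_KF) (hk1f : S_K1F) (ha0 : S_A0)
    (hconn : S_conn) : S_A1 := by
  intro V _ P H S X hM hX hn hne
  obtain ⟨X0, h1, h2, h3, h4, hmin⟩ := least (P := P) (H := H) hX hn hne
  obtain ⟨x, hx, v, hv, hadj⟩ := hconn V P H S X0 hM h1 h2 h3
  obtain ⟨l1, l2, -, l4, -⟩ := hlow V P H false x hM.ok
  have hb := P.hb
  have hd := P.hd
  have hab := P.hab
  have hyp : Hyp P (low H false x) X0 := by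
    intro Y hY hYn
    have e1 := l2 Y
    have hYS : Y ≠ S := by
      rintro rfl
      exact h3 (Finset.Subset.antisymm h1 hY)
    have e2 := ha0 V P H S Y hM (hY.trans h1) hYn hYS
    have e3 := hM.hyp S (Finset.Subset.refl S) (ne_of_mc hM)
    have e4 : kap P false = P.b := rfl
    rw [e4] at e1
    split_ifs at e1 <;> omega
  have heE : eE (low H false x) X0 ≤ eE H S := (eE_mono hM.ok h1 : eE H X0 ≤ eE H S)
  obtain ⟨f, p, hc⟩ := hM.ih2 (low H false x) X0 l1 hyp heE
    (Finset.card_lt_card (Finset.ssubset_iff_subset_ne.2 ⟨h1, h3⟩))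
  obtain ⟨hc', hl⟩ := l4 X0 f p hc
  cases hfx : f x with
  | false =>
    have h5 := (hl hx hfx).1
    obtain ⟨Y, hY, hYn, hle⟩ := hk1f V P H S X0 f p x v hM h1 hc' hx hv hadj
      (by rw [hfx]; exact h5)
    have h6 : (0 : ℤ) ≤ (if v ∈ Y then 2 * P.a else 0) := by
      split_ifs <;> omega
    obtain ⟨hw, hYe⟩ := whole h1 h2 hmin hY (by omega)
    have hvY : v ∈ Y := by rw [hYe]; exact hv
    rw [hw, if_pos hvY] at hle
    omega
  | true =>
    obtain ⟨Y, hY, hYn, hle⟩ := hkf V P H S X0 f p hM h1 h2 hc'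
    obtain ⟨-, -, k3, k4, -⟩ := hkr V P H X0 f hM.ok
    have hs : 0 ≤ ∑ v ∈ Y, sav P H X0 f v :=
      Finset.sum_nonneg fun v _ => (k3 v).2.2.2.2.2
    obtain ⟨hw, hYe⟩ := whole h1 h2 hmin hY (by omega)
    have hvY : v ∈ Y := by rw [hYe]; exact hv
    have hs2 : sav P H X0 f v ≤ ∑ v ∈ Y, sav P H X0 f v :=
      Finset.single_le_sum (f := fun v => sav P H X0 f v) (fun v _ => (k3 v).2.2.2.2.2) hvY
    have ht : 1 ≤ t1 H X0 f v := by
      unfold t1
      have hxm : x ∈ X0.filter (fun y => f y = true) := Finset.mem_filter.2 ⟨hx, hfx⟩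
      have e1 : H.r x v ≤ nr H X0 f true v := by
        unfold nr
        exact Finset.single_le_sum (f := fun y => H.r y v) (fun y _ => r_nn hM.ok y v) hxm
      have e2 : H.m x v ≤ pr H X0 f true v := by
        unfold pr
        exact Finset.single_le_sum (f := fun y => H.m y v) (fun y _ => hM.ok.m_nn y v) hxm
      have e3 := r_nn hM.ok x v
      have e4 := hM.ok.m_nn x v
      rcases hadj with h | h <;> omega
    have h7 := k4 v
    have h8 : P.d ≤ P.d * t1 H X0 f v := by nlinarith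
    rw [hw] at hle
    omega

end Pool.Agent.N644.DF.Pot
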